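import Mathlib

set_option autoImplicit false
set_option linter.unusedVariables false
set_option linter.unusedSimpArgs false

/-!
# Products of transvections in a Hecke group: a lower bound for the syllable length
-/

namespace Pool.Agent.helper24.FJ3

namespace MG

open scoped BigOperators

/-- equal to `1` or `-1` -/
def PM (A : Matrix (Fin 2) (Fin 2) ℝ) : Prop := A = 1 ∨ A = -1

theorem PM.neg {A : Matrix (Fin 2) (Fin 2) ℝ} (h : PM A) : PM (-A) := by
  rcases h with h | h
  · exact Or.inr (by rw [h])
  · exact Or.inl (by rw [h, neg_neg])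

theorem PM.neg_iff {A : Matrix (Fin 2) (Fin 2) ℝ} : PM (-A) ↔ PM A :=
  ⟨fun h => by simpa using h.neg, PM.neg⟩

theorem PM.comm {A B : Matrix (Fin 2) (Fin 2) ℝ} (h : PM (A * B)) : PM (B * A) := by
  rcases h with h | h
  · exact Or.inl (mul_eq_one_comm.1 h)
  · right
    have h1 : (-A) * B = 1 := by rw [neg_mul, h, neg_neg]
    have h2 := mul_eq_one_comm.1 h1
    rw [mul_neg] at h2
    rw [← h2, neg_neg]

/-- the matrices `U^x Σ` -/
def E (c : ℝ) (x : ℤ) : Matrix (Fin 2) (Fin 2) ℝ := !![-(x * c), 1; -1, 0]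

/-- the product -/
noncomputable def Phi (c : ℝ) (l : List ℤ) : Matrix (Fin 2) (Fin 2) ℝ := (l.map (E c)).prod

theorem Phi_nil (c : ℝ) : Phi c [] = 1 := rfl

theorem Phi_cons (c : ℝ) (x : ℤ) (l : List ℤ) : Phi c (x :: l) = E c x * Phi c l := by
  simp [Phi]

theorem Phi_append (c : ℝ) (l l' : List ℤ) : Phi c (l ++ l') = Phi c l * Phi c l' := by
  simp [Phi]

theorem Phi_comm {c : ℝ} {l l' : List ℤ} (h : PM (Phi c (l ++ l'))) : PM (Phi c (l' ++ l)) := by
  rw [Phi_append] at h ⊢
  exact h.comm

theorem E_zero (c : ℝ) (x y : ℤ) : E c x * (E c 0 * E c y) = -E c (x + y) := by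
  ext i j
  fin_cases i <;> fin_cases j <;> simp [E, Matrix.mul_apply, Fin.sum_univ_two] <;> ring

/-- ratio of a vector -/
def Rt (v : Fin 2 → ℝ) (t : ℝ) : Prop := v 1 ≠ 0 ∧ v 0 = t * v 1

theorem Rt.step {c : ℝ} {v : Fin 2 → ℝ} {t : ℝ} (h : Rt v t) (ht : t ≠ 0) (x : ℤ) :
    Rt ((E c x).mulVec v) (x * c - 1 / t) := by
  obtain ⟨h1, h2⟩ := h
  have e0 : (E c x).mulVec v 0 = -(x * c) * v 0 + v 1 := by
    simp [E, Matrix.mulVec, dotProduct, Fin.sum_univ_two]
  have e1 : (E c x).mulVec v 1 = -v 0 := by
    simp [E, Matrix.mulVec, dotProduct, Fin.sum_univ_two]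
  refine ⟨?_, ?_⟩
  · rw [e1, h2]
    exact neg_ne_zero.2 (mul_ne_zero ht h1)
  · rw [e0, e1, h2]
    field_simp
    ring

theorem Rt.unique {v : Fin 2 → ℝ} {t t' : ℝ} (h : Rt v t) (h' : Rt v t') : t = t' :=
  mul_right_cancel₀ h.1 (h.2.symm.trans h'.2)

theorem Rt.pm {v : Fin 2 → ℝ} {t t' : ℝ} {A : Matrix (Fin 2) (Fin 2) ℝ} (hA : PM A)
    (h : Rt v t) (h' : Rt (A.mulVec v) t') : t = t' := by
  rcases hA with rfl | rfl
  · rw [Matrix.one_mulVec] at h'
    exact h.unique h'
  · rw [Matrix.neg_mulVec, Matrix.one_mulVec] at h'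
    refine h.unique ⟨h.1, ?_⟩
    have := h'.2
    simp only [Pi.neg_apply, mul_neg, neg_inj] at this
    exact this

/-! ## The bounds -/

/-- the bounds of the ping-pong argument -/
noncomputable def B (m k : ℕ) : ℝ :=
  Real.sin ((k + 1 : ℝ) * (Real.pi / m)) / Real.sin ((k : ℝ) * (Real.pi / m))

/-- the parameter -/
noncomputable def lam (m : ℕ) : ℝ := 2 * Real.cos (Real.pi / m)

theorem sin_pos' {m k : ℕ} (hk : 0 < k) (hkm : k < m) :
    0 < Real.sin ((k : ℝ) * (Real.pi / m)) := by
  have hm : (0 : ℝ) < m := by exact_mod_cast (by omega : 0 < m)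
  apply Real.sin_pos_of_pos_of_lt_pi
  · have : (0 : ℝ) < k := by exact_mod_cast hk
    have := Real.pi_pos
    positivity
  · have h1 : (k : ℝ) < m := by exact_mod_cast hkm
    rw [mul_div_assoc', div_lt_iff₀ hm]
    nlinarith [Real.pi_pos]

theorem sin_succ (m : ℕ) (k : ℝ) :
    Real.sin ((k + 2) * (Real.pi / m)) + Real.sin (k * (Real.pi / m)) =
      lam m * Real.sin ((k + 1) * (Real.pi / m)) := by
  have e1 : (k + 2) * (Real.pi / m) = (k + 1) * (Real.pi / m) + Real.pi / m := by ring
  have e2 : k * (Real.pi / m) = (k + 1) * (Real.pi / m) - Real.pi / m := by ring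
  rw [e1, e2, Real.sin_add, Real.sin_sub, lam]
  ring

theorem B_one {m : ℕ} (hm : 3 ≤ m) : B m 1 = lam m := by
  have h := sin_pos' (m := m) (k := 1) one_pos (by omega)
  have h1 := sin_succ m 0
  simp only [zero_add, zero_mul, Real.sin_zero, add_zero] at h1
  rw [B, div_eq_iff h.ne']
  push_cast
  rw [show (1 : ℝ) + 1 = 2 by norm_num]
  exact h1

theorem B_pos {m k : ℕ} (hk : 1 ≤ k) (hkm : k + 2 ≤ m) : 0 < B m k := by
  have h := sin_pos' (m := m) (k := k) (by omega) (by omega)
  have h1 := sin_pos' (m := m) (k := k + 1) (by omega) (by omega)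
  push_cast at h1
  exact div_pos h1 h

theorem B_last {m : ℕ} (hm : 3 ≤ m) : B m (m - 1) = 0 := by
  rw [B]
  have h1 : ((m - 1 : ℕ) : ℝ) + 1 = m := by
    rw [Nat.cast_sub (by omega)]
    ring
  have h2 : (m : ℝ) ≠ 0 := by exact_mod_cast (by omega : m ≠ 0)
  rw [h1, mul_div_cancel₀ _ h2, Real.sin_pi, zero_div]

theorem B_nonneg {m k : ℕ} (hm : 3 ≤ m) (hk : 1 ≤ k) (hkm : k + 1 ≤ m) : 0 ≤ B m k := by
  rcases Nat.lt_or_ge (k + 1) m with h | h
  · exact (B_pos hk (by omega)).le
  · have : k = m - 1 := by omega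
    rw [this, B_last hm]

theorem B_succ {m k : ℕ} (hk : 1 ≤ k) (hkm : k + 2 ≤ m) : B m (k + 1) = lam m - 1 / B m k := by
  have h := sin_pos' (m := m) (k := k) (by omega) (by omega)
  have h1 := sin_pos' (m := m) (k := k + 1) (by omega) (by omega)
  have h2 := sin_succ m k
  push_cast at h1
  rw [B, B]
  push_cast
  rw [show (k : ℝ) + 1 + 1 = k + 2 by ring, one_div_div, eq_sub_iff_add_eq, ← add_div, h2,
    mul_div_assoc, div_self h1.ne', mul_one]

theorem lam_pos {m : ℕ} (hm : 3 ≤ m) : 0 < lam m := by
  rw [← B_one hm]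
  exact B_pos le_rfl (by omega)

theorem B_ge {m k : ℕ} (hm : 3 ≤ m) (hk : 1 ≤ k) (hkm : k + 2 ≤ m) : 1 / B m k ≤ lam m := by
  have h1 := B_succ hk hkm
  have h2 := B_nonneg (k := k + 1) hm (by omega) (by omega)
  linarith

/-! ## Windows -/

/-- the list contains a window with the sign `s` -/
def Win (m : ℕ) (s : ℤ) (l : List ℤ) : Prop :=
  ∃ (x y : ℤ) (l1 l2 : List ℤ), 0 < s * x ∧ 0 < s * y ∧
    l = l1 ++ (y :: (List.replicate (m - 2) s ++ x :: l2))

theorem Win.cons {m : ℕ} {s : ℤ} {l : List ℤ} (h : Win m s l) (z : ℤ) : Win m s (z :: l) := by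
  obtain ⟨x, y, l1, l2, h1, h2, rfl⟩ := h
  exact ⟨x, y, z :: l1, l2, h1, h2, rfl⟩

/-- the state after a non-empty list -/
theorem state {m : ℕ} (hm : 3 ≤ m) (l : List ℤ) (hl : l ≠ []) (h0 : ∀ x ∈ l, x ≠ 0)
    (hw : ∀ s : ℤ, s = 1 ∨ s = -1 → ¬ Win m s l) (v : Fin 2 → ℝ) (t : ℝ) (hv : Rt v t)
    (ht : ∀ x, l.getLast? = some x → (x : ℝ) * t < 0) :
    ∃ (s : ℤ) (k : ℕ) (x : ℤ) (r : List ℤ) (t' : ℝ), (s = 1 ∨ s = -1) ∧ 1 ≤ k ∧ k + 1 ≤ m ∧
      l = List.replicate (k - 1) s ++ x :: r ∧ 0 < s * x ∧
      Rt ((Phi (lam m) l).mulVec v) t' ∧ B m k < s * t' := by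
  have hlam := lam_pos hm
  induction l with
  | nil => exact absurd rfl hl
  | cons y l ih =>
    rcases eq_or_ne l [] with rfl | hl'
    · have hy := ht y (by simp)
      have hy0 : y ≠ 0 := h0 y (by simp)
      have ht0 : t ≠ 0 := by
        rintro rfl
        simp at hy
      have hR := hv.step (c := lam m) ht0 y
      rcases lt_or_gt_of_ne hy0 with hneg | hpos
      · have hyr : (y : ℝ) ≤ -1 := by exact_mod_cast (by omega : y ≤ -1)
        have htp : 0 < t := by
          by_contra hc
          nlinarith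
        refine ⟨-1, 1, y, [], y * lam m - 1 / t, Or.inr rfl, le_rfl, by omega, rfl, by omega, ?_, ?_⟩
        · rw [Phi_cons, Phi_nil, mul_one]
          exact hR
        · rw [B_one hm]
          have : 0 < 1 / t := by positivity
          push_cast
          nlinarith
      · have hyr : (1 : ℝ) ≤ y := by exact_mod_cast (by omega : 1 ≤ y)
        have htp : t < 0 := by
          by_contra hc
          nlinarith
        refine ⟨1, 1, y, [], y * lam m - 1 / t, Or.inl rfl, le_rfl, by omega, rfl, by omega, ?_, ?_⟩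
        · rw [Phi_cons, Phi_nil, mul_one]
          exact hR
        · rw [B_one hm]
          have : 1 / t < 0 := by
            exact one_div_neg.2 htp
          push_cast
          nlinarith
    · obtain ⟨s, k, x, r, t', hs, hk, hkm, hlr, hsx, hR, hB⟩ := ih hl'
        (fun z hz => h0 z (List.mem_cons_of_mem _ hz)) (fun s hs h => hw s hs (h.cons _))
        (fun z hz => ht z (by
          rw [List.getLast?_cons]
          rw [hz]
          rfl))
      have hy0 : y ≠ 0 := h0 y (by simp)
      have hBn := B_nonneg hm hk hkm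
      have hst : 0 < s * t' := lt_of_le_of_lt hBn hB
      have ht' : t' ≠ 0 := by
        rintro rfl
        simp at hst
      have hR' := hR.step (c := lam m) ht' y
      rw [Matrix.mulVec_mulVec, ← Phi_cons] at hR'
      have hss : (s : ℝ) * s = 1 := by
        rcases hs with rfl | rfl <;> norm_num
      have hst1 : (s : ℝ) * (1 / t') = 1 / (s * t') := by
        have : (s : ℝ) ≠ 0 := by
          rcases hs with rfl | rfl <;> norm_num
        field_simp
        nlinarith
      have hinv : 0 < 1 / ((s : ℝ) * t') := by positivity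
      rcases lt_or_gt_of_ne (mul_ne_zero (show s ≠ 0 by rcases hs with rfl | rfl <;> norm_num) hy0)
        with hneg | hpos
      · -- sign change
        have hyr : (s : ℝ) * y ≤ -1 := by exact_mod_cast (by omega : s * y ≤ -1)
        refine ⟨-s, 1, y, l, y * lam m - 1 / t', ?_, le_rfl, by omega, rfl, by
          rw [neg_mul]
          omega, hR', ?_⟩
        · rcases hs with rfl | rfl
          · exact Or.inr rfl
          · exact Or.inl rfl
        · rw [B_one hm]
          have e : ((-s : ℤ) : ℝ) * (y * lam m - 1 / t') = -(s * y) * lam m + 1 / (s * t') := by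
            rw [← hst1]
            push_cast
            ring
          rw [e]
          nlinarith
      · have hk2 : k + 2 ≤ m := by
          by_contra hc
          have hk3 : k = m - 1 := by omega
          refine hw s hs ⟨x, y, [], r, hsx, hpos, ?_⟩
          rw [hlr, hk3]
          rfl
        have hBk := B_pos hk hk2
        have h1 : 1 / ((s : ℝ) * t') < 1 / B m k := one_div_lt_one_div_of_lt hBk hB
        have e : (s : ℝ) * (y * lam m - 1 / t') = (s * y) * lam m - 1 / (s * t') := by
          rw [← hst1]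
          ring
        rcases Nat.lt_or_ge 1 (s * y).toNat with h2 | h2
        · have hyr : (2 : ℝ) ≤ s * y := by exact_mod_cast (by omega : 2 ≤ s * y)
          refine ⟨s, 1, y, l, y * lam m - 1 / t', hs, le_rfl, by omega, rfl, hpos, hR', ?_⟩
          rw [e, B_one hm]
          have h3 := B_ge hm hk hk2
          nlinarith
        · have hy1 : s * y = 1 := by omega
          have hys : y = s := by
            rcases hs with rfl | rfl <;> omega
          refine ⟨s, k + 1, x, r, y * lam m - 1 / t', hs, by omega, by omega, ?_, hsx, hR', ?_⟩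
          · rw [hlr, hys]
            have : k + 1 - 1 = (k - 1) + 1 := by omega
            rw [this, List.replicate_succ]
            rfl
          · rw [e, B_succ hk hk2]
            have : (s : ℝ) * y = 1 := by exact_mod_cast hy1
            rw [this]
            linarith

theorem lam_ne {m : ℕ} (hm : 3 ≤ m) : lam m ≠ 0 := (lam_pos hm).ne'

/-- the test vector -/
theorem exists_test {m : ℕ} (hm : 3 ≤ m) (s : ℝ) (hs : s ≠ 0) :
    Rt ![s, 1] s := ⟨by simp, by simp⟩

/-- no window and both signs in front -/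
theorem nf_front {m : ℕ} (hm : 3 ≤ m) (x y : ℤ) (l : List ℤ) (hxy : x * y < 0)
    (h0 : ∀ z ∈ y :: l, z ≠ 0) (hw : ∀ s : ℤ, s = 1 ∨ s = -1 → ¬ Win m s (y :: l)) :
    ¬ PM (Phi (lam m) (x :: y :: l)) := by
  intro hPM
  have hlam := lam_pos hm
  obtain ⟨z, hz⟩ : ∃ z, (y :: l).getLast? = some z := by
    cases h : (y :: l).getLast? with
    | none => simp at h
    | some z => exact ⟨z, rfl⟩
  have hz0 : z ≠ 0 := h0 z (List.mem_of_getLast? hz)
  -- the test value
  obtain ⟨t, ht, hzt⟩ : ∃ t : ℝ, |t| = lam m ∧ (z : ℝ) * t < 0 := by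
    rcases lt_or_gt_of_ne hz0 with h | h
    · refine ⟨lam m, abs_of_pos hlam, ?_⟩
      have : (z : ℝ) < 0 := by exact_mod_cast h
      nlinarith
    · refine ⟨-lam m, by rw [abs_neg, abs_of_pos hlam], ?_⟩
      have : (0 : ℝ) < z := by exact_mod_cast h
      nlinarith
  have hv : Rt ![t, 1] t := ⟨by simp, by simp⟩
  obtain ⟨s, k, w, r, t', hs, hk, hkm, hlr, hsw, hR, hB⟩ := state hm (y :: l) (by simp) h0 hw
    ![t, 1] t hv (fun u hu => by
      rw [hz] at hu
      obtain rfl := Option.some.inj hu
      exact hzt)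
  have hst : 0 < s * t' := lt_of_le_of_lt (B_nonneg hm hk hkm) hB
  have ht' : t' ≠ 0 := by
    rintro rfl
    simp at hst
  have hR' := hR.step (c := lam m) ht' x
  rw [Matrix.mulVec_mulVec, ← Phi_cons] at hR'
  have heq := Rt.pm hPM hv hR'
  -- the sign of `y` is `s`
  have hys : 0 < s * y := by
    rcases Nat.eq_zero_or_pos (k - 1) with h | h
    · rw [h] at hlr
      simp only [List.replicate_zero, List.nil_append, List.cons.injEq] at hlr
      rw [hlr.1]
      exact hsw
    · obtain ⟨j, hj⟩ := Nat.exists_eq_add_of_lt h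
      rw [show k - 1 = j + 1 by omega, List.replicate_succ, List.cons_append,
        List.cons.injEq] at hlr
      rw [hlr.1]
      rcases hs with rfl | rfl <;> norm_num
  have hsx : s * x < 0 := by
    by_contra hc
    push Not at hc
    have h1 : 0 ≤ (s * x) * (s * y) := mul_nonneg hc hys.le
    have h2 : s * s = 1 := by rcases hs with rfl | rfl <;> norm_num
    have h3 : (s * x) * (s * y) = (s * s) * (x * y) := by ring
    rw [h3, h2, one_mul] at h1
    omega
  have hsxr : (s : ℝ) * x ≤ -1 := by exact_mod_cast (by omega : s * x ≤ -1)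
  have hst1 : (s : ℝ) * (1 / t') = 1 / (s * t') := by
    have h2 : (s : ℝ) * s = 1 := by rcases hs with rfl | rfl <;> norm_num
    have : (s : ℝ) ≠ 0 := by
      rcases hs with rfl | rfl <;> norm_num
    field_simp
    nlinarith
  have hinv : 0 < 1 / ((s : ℝ) * t') := by positivity
  have h3 : (s : ℝ) * t < -lam m := by
    rw [heq]
    have e : (s : ℝ) * (x * lam m - 1 / t') = (s * x) * lam m - 1 / (s * t') := by
      rw [← hst1]
      ring
    rw [e]
    nlinarith
  have h4 : |(s : ℝ) * t| = lam m := by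
    rw [abs_mul, ht]
    rcases hs with rfl | rfl <;> norm_num
  have h5 : -|(s : ℝ) * t| ≤ s * t := neg_abs_le _
  linarith

/-- no window and only one sign -/
theorem nf_same {m : ℕ} (hm : 3 ≤ m) (s₀ : ℤ) (l : List ℤ) (hl : l ≠ []) (hsame : ∀ z ∈ l, 0 < s₀ * z)
    (hw : ∀ s : ℤ, s = 1 ∨ s = -1 → ¬ Win m s l) : ¬ PM (Phi (lam m) l) := by
  intro hPM
  have h0 : ∀ z ∈ l, z ≠ 0 := by
    intro z hz h
    have := hsame z hz
    rw [h] at this
    simp at this
  have hs0 : s₀ ≠ 0 := by
    obtain ⟨z, hz⟩ := List.exists_mem_of_ne_nil l hl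
    rintro rfl
    have := hsame z hz
    simp at this
  have hs0r : (s₀ : ℝ) ≠ 0 := by exact_mod_cast hs0
  have hv : Rt ![-(s₀ : ℝ), 1] (-(s₀ : ℝ)) := ⟨by simp, by simp⟩
  obtain ⟨s, k, w, r, t', hs, hk, hkm, hlr, hsw, hR, hB⟩ := state hm l hl h0 hw
    ![-(s₀ : ℝ), 1] (-(s₀ : ℝ)) hv (fun u hu => by
      have := hsame u (List.mem_of_getLast? hu)
      have h1 : (0 : ℝ) < s₀ * u := by exact_mod_cast this
      linarith)
  have heq := Rt.pm hPM hv hR
  have hst : 0 < s * t' := lt_of_le_of_lt (B_nonneg hm hk hkm) hB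
  have hw1 : 0 < s₀ * w := hsame w (by rw [hlr]; simp)
  have h1 : 0 < (s₀ * w) * (s * w) := mul_pos hw1 hsw
  have h2 : 0 < s₀ * s := by
    have h3 : (s₀ * w) * (s * w) = (s₀ * s) * w ^ 2 := by ring
    rw [h3] at h1
    by_contra hc
    push Not at hc
    nlinarith [sq_nonneg w]
  have h3 : (0 : ℝ) < s₀ * s := by exact_mod_cast h2
  rw [← heq] at hst
  linarith

/-- a list with both signs has a change of sign -/
theorem sign_change (l : List ℤ) (h0 : ∀ z ∈ l, z ≠ 0) (hne : l ≠ []) :
    (∃ s : ℤ, (s = 1 ∨ s = -1) ∧ ∀ z ∈ l, 0 < s * z) ∨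
      ∃ (x y : ℤ) (l1 l2 : List ℤ), x * y < 0 ∧ l = l1 ++ (x :: y :: l2) := by
  induction l with
  | nil => exact absurd rfl hne
  | cons x l ih =>
    have hx := h0 x (by simp)
    rcases l with _ | ⟨y, l⟩
    · left
      rcases lt_or_gt_of_ne hx with h | h
      · exact ⟨-1, Or.inr rfl, by simpa using h⟩
      · exact ⟨1, Or.inl rfl, by simpa using h⟩
    · have hy := h0 y (by simp)
      rcases ih (fun z hz => h0 z (List.mem_cons_of_mem _ hz)) (by simp) with
        ⟨s, hs, h1⟩ | ⟨x', y', l1, l2, h1, h2⟩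
      · rcases lt_or_gt_of_ne (mul_ne_zero (show s ≠ 0 by rcases hs with rfl | rfl <;> norm_num) hx)
          with h2 | h2
        · right
          refine ⟨x, y, [], l, ?_, rfl⟩
          have h3 := h1 y (by simp)
          have h4 : s * s = 1 := by rcases hs with rfl | rfl <;> norm_num
          have h5 : (s * x) * (s * y) < 0 := mul_neg_of_neg_of_pos h2 h3
          have h6 : (s * x) * (s * y) = (s * s) * (x * y) := by ring
          rw [h6, h4, one_mul] at h5
          exact h5
        · left
          refine ⟨s, hs, ?_⟩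
          intro z hz
          rcases List.mem_cons.1 hz with rfl | hz
          · exact h2
          · exact h1 z hz
      · right
        exact ⟨x', y', x :: l1, l2, h1, by rw [h2]; rfl⟩

theorem exists_win {m : ℕ} (hm : 3 ≤ m) (l : List ℤ) (hl : l ≠ []) (h0 : ∀ z ∈ l, z ≠ 0)
    (hPM : PM (Phi (lam m) l)) :
    ∃ (a b : List ℤ) (s : ℤ), (s = 1 ∨ s = -1) ∧ l = a ++ b ∧ Win m s (b ++ a) := by
  by_contra hcon
  have hw : ∀ (a b : List ℤ) (s : ℤ), s = 1 ∨ s = -1 → l = a ++ b → ¬ Win m s (b ++ a) :=
    fun a b s hs hab hW => hcon ⟨a, b, s, hs, hab, hW⟩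
  rcases sign_change l h0 hl with ⟨s, hs, h1⟩ | ⟨x, y, l1, l2, hxy, hl12⟩
  · refine nf_same hm s l hl h1 ?_ hPM
    intro s' hs' hW
    exact hw [] l s' hs' rfl (by simpa using hW)
  · have h2 : PM (Phi (lam m) ((x :: y :: l2) ++ l1)) := Phi_comm (hl12 ▸ hPM)
    refine nf_front hm x y (l2 ++ l1) hxy ?_ ?_ h2
    · intro z hz
      apply h0
      rw [hl12]
      simp only [List.mem_cons, List.mem_append] at hz ⊢
      tauto
    · intro s' hs' hW
      refine hw l1 (x :: y :: l2) s' hs' hl12 ?_
      exact hW.cons x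

/-! ## The rewriting -/

/-- the number of negative entries -/
def neg (l : List ℤ) : ℕ := l.countP (fun x => decide (x < 0))

theorem neg_append (a b : List ℤ) : neg (a ++ b) = neg a + neg b := by
  simp [neg]

theorem neg_cons (x : ℤ) (l : List ℤ) : neg (x :: l) = neg l + if x < 0 then 1 else 0 := by
  simp [neg, List.countP_cons]

theorem neg_comm (a b : List ℤ) : neg (a ++ b) = neg (b ++ a) := by
  rw [neg_append, neg_append, add_comm]

theorem Win.neg_ge {m : ℕ} (hm : 3 ≤ m) {l : List ℤ} (h : Win m (-1) l) : m ≤ neg l := by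
  obtain ⟨x, y, l1, l2, h1, h2, rfl⟩ := h
  have h3 : ∀ j : ℕ, neg (List.replicate j (-1 : ℤ)) = j := by
    intro j
    induction j with
    | zero => rfl
    | succ j ih =>
      rw [List.replicate_succ, neg_cons, ih, if_pos (by omega)]
  rw [neg_append, neg_cons, neg_append, neg_cons, h3, if_pos (by omega), if_pos (by omega)]
  omega

theorem E_one_pow {m : ℕ} (hm : 3 ≤ m) (k : ℕ) :
    E (lam m) 1 ^ k = ((-1) ^ k / Real.sin (Real.pi / m)) •
      !![Real.sin ((k + 1 : ℝ) * (Real.pi / m)), -Real.sin ((k : ℝ) * (Real.pi / m));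
        Real.sin ((k : ℝ) * (Real.pi / m)), -Real.sin ((k - 1 : ℝ) * (Real.pi / m))] := by
  have hs : Real.sin (Real.pi / m) ≠ 0 := by
    have := sin_pos' (m := m) (k := 1) one_pos (by omega)
    simp only [Nat.cast_one, one_mul] at this
    exact this.ne'
  induction k with
  | zero =>
    have e1 : ((0 : ℕ) - 1 : ℝ) * (Real.pi / m) = -(Real.pi / m) := by push_cast; ring
    have e2 : ((0 : ℕ) + 1 : ℝ) * (Real.pi / m) = Real.pi / m := by push_cast; ring
    rw [e1, e2, Real.sin_neg]
    ext i j
    fin_cases i <;> fin_cases j <;> simp [hs]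
  | succ k ih =>
    rw [pow_succ, ih]
    have h1 := sin_succ m k
    have h2 := sin_succ m (k - 1)
    rw [show (k : ℝ) - 1 + 2 = k + 1 by ring, show (k : ℝ) - 1 + 1 = k by ring] at h2
    have e3 : (((k + 1 : ℕ) : ℝ) + 1) = k + 2 := by push_cast; ring
    have e4 : (((k + 1 : ℕ) : ℝ) - 1) = k := by push_cast; ring
    rw [e3, e4]
    push_cast
    ext i j
    fin_cases i <;> fin_cases j
    · simp only [E, Matrix.smul_mul, Matrix.smul_apply, Matrix.mul_apply, Fin.sum_univ_two,
        Matrix.of_apply, Matrix.cons_val', Matrix.cons_val_zero, Matrix.cons_val_one,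
        Fin.zero_eta, Fin.mk_one, smul_eq_mul, Matrix.cons_val_fin_one, Int.cast_one]
      rw [pow_succ]
      rw [← eq_sub_iff_add_eq] at h1
      rw [h1]
      ring
    · simp only [E, Matrix.smul_mul, Matrix.smul_apply, Matrix.mul_apply, Fin.sum_univ_two,
        Matrix.of_apply, Matrix.cons_val', Matrix.cons_val_zero, Matrix.cons_val_one,
        Fin.zero_eta, Fin.mk_one, smul_eq_mul, Matrix.cons_val_fin_one, Int.cast_one]
      rw [pow_succ]
      ring
    · simp only [E, Matrix.smul_mul, Matrix.smul_apply, Matrix.mul_apply, Fin.sum_univ_two,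
        Matrix.of_apply, Matrix.cons_val', Matrix.cons_val_zero, Matrix.cons_val_one,
        Fin.zero_eta, Fin.mk_one, smul_eq_mul, Matrix.cons_val_fin_one, Int.cast_one]
      rw [pow_succ]
      rw [← eq_sub_iff_add_eq] at h2
      rw [h2]
      ring
    · simp only [E, Matrix.smul_mul, Matrix.smul_apply, Matrix.mul_apply, Fin.sum_univ_two,
        Matrix.of_apply, Matrix.cons_val', Matrix.cons_val_zero, Matrix.cons_val_one,
        Fin.zero_eta, Fin.mk_one, smul_eq_mul, Matrix.cons_val_fin_one, Int.cast_one]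
      rw [pow_succ]
      ring

theorem E_one_window {m : ℕ} (hm : 3 ≤ m) :
    E (lam m) 1 ^ (m - 2) = ((-1) ^ m : ℝ) • !![1, -lam m; lam m, 1 - lam m ^ 2] := by
  have hs : Real.sin (Real.pi / m) ≠ 0 := by
    have := sin_pos' (m := m) (k := 1) one_pos (by omega)
    simp only [Nat.cast_one, one_mul] at this
    exact this.ne'
  have hm0 : (m : ℝ) ≠ 0 := by exact_mod_cast (by omega : m ≠ 0)
  have hmc : ((m - 2 : ℕ) : ℝ) = m - 2 := by
    rw [Nat.cast_sub (by omega)]
    norm_num
  rw [E_one_pow hm, hmc]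
  have e1 : ((m : ℝ) - 2 + 1) * (Real.pi / m) = Real.pi - Real.pi / m := by
    field_simp
    ring
  have e2 : ((m : ℝ) - 2) * (Real.pi / m) = Real.pi - 2 * (Real.pi / m) := by
    field_simp
  have e3 : ((m : ℝ) - 2 - 1) * (Real.pi / m) = Real.pi - 3 * (Real.pi / m) := by
    field_simp
    ring
  have h1 := sin_succ m 0
  simp only [zero_add, zero_mul, Real.sin_zero, add_zero, one_mul] at h1
  have h2 := sin_succ m 1
  rw [show (1 : ℝ) + 2 = 3 by norm_num, show (1 : ℝ) + 1 = 2 by norm_num, one_mul, h1,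
    ← eq_sub_iff_add_eq] at h2
  have hp : ((-1 : ℝ)) ^ (m - 2) = (-1) ^ m := by
    have : m = (m - 2) + 2 := by omega
    conv_rhs => rw [this, pow_add]
    norm_num
  rw [e1, e2, e3, Real.sin_pi_sub, Real.sin_pi_sub, Real.sin_pi_sub, h1, h2, hp]
  ext i j
  fin_cases i <;> fin_cases j <;> simp <;> field_simp

theorem window_eq {m : ℕ} (hm : 3 ≤ m) (x y : ℤ) :
    Phi (lam m) (y :: (List.replicate (m - 2) 1 ++ [x])) =
      ((-1) ^ m : ℝ) • Phi (lam m) [y - 1, x - 1] := by
  rw [Phi_cons, Phi_append]
  have h1 : Phi (lam m) (List.replicate (m - 2) 1) = E (lam m) 1 ^ (m - 2) := by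
    simp [Phi]
  rw [h1, E_one_window hm]
  ext i j
  fin_cases i <;> fin_cases j <;>
    simp [Phi, E, Matrix.mul_apply, Fin.sum_univ_two] <;> ring

theorem claim {m : ℕ} (hm : 3 ≤ m) (n : ℕ) : ∀ l : List ℤ, l.length = n → neg l < m →
    PM (Phi (lam m) l) → 0 ≤ l.sum ∧ (l ≠ [] → (∀ z ∈ l, z ≠ 0) → 0 < l.sum) := by
  induction n using Nat.strong_induction_on with
  | _ n ih =>
    intro l hn hneg hPM
    rcases eq_or_ne l [] with rfl | hl
    · exact ⟨by simp, fun h => absurd rfl h⟩
    by_cases h0 : ∀ z ∈ l, z ≠ 0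
    · -- a window
      suffices h : 0 < l.sum from ⟨h.le, fun _ _ => h⟩
      obtain ⟨a, b, s, hs, hab, hW⟩ := exists_win hm l hl h0 hPM
      have hneg' : neg (b ++ a) < m := by
        rw [neg_comm, ← hab]
        exact hneg
      rcases hs with rfl | rfl
      · have hPM' : PM (Phi (lam m) (b ++ a)) := Phi_comm (hab ▸ hPM)
        obtain ⟨x, y, l1, l2, h1, h2, h3⟩ := hW
        have hlen : (b ++ a).length = n := by
          rw [← hn, hab, List.length_append, List.length_append, add_comm]
        have hsum : (b ++ a).sum = l.sum := by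
          rw [hab, List.sum_append, List.sum_append, add_comm]
        rw [h3] at hPM' hneg' hlen hsum
        have e : l1 ++ y :: (List.replicate (m - 2) 1 ++ x :: l2) =
            l1 ++ ((y :: (List.replicate (m - 2) 1 ++ [x])) ++ l2) := by simp
        have hPM2 : PM (Phi (lam m) (l1 ++ ([y - 1, x - 1] ++ l2))) := by
          rw [e, Phi_append, Phi_append, window_eq hm] at hPM'
          rw [Phi_append, Phi_append]
          rcases neg_one_pow_eq_or ℝ m with h | h
          · rw [h] at hPM'
            simpa using hPM'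
          · rw [h] at hPM'
            rw [← PM.neg_iff]
            simpa using hPM'
        have hlen2 : (l1 ++ ([y - 1, x - 1] ++ l2)).length < n := by
          rw [← hlen]
          simp only [List.length_append, List.length_cons, List.length_replicate, List.length_nil]
          omega
        have hneg2 : neg (l1 ++ ([y - 1, x - 1] ++ l2)) < m := by
          refine lt_of_le_of_lt ?_ hneg'
          have h5 : neg [y - 1, x - 1] = 0 := by
            rw [neg_cons, neg_cons, if_neg (by omega), if_neg (by omega)]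
            rfl
          rw [neg_append, neg_append, h5, neg_append, neg_cons y, neg_append, neg_cons x]
          omega
        have h6 := (ih _ hlen2 _ rfl hneg2 hPM2).1
        rw [← hsum]
        simp only [List.sum_append, List.sum_cons, List.sum_replicate, List.sum_nil, smul_eq_mul,
          nsmul_eq_mul, mul_one] at h6 ⊢
        have h7 : ((m - 2 : ℕ) : ℤ) = m - 2 := by
          rw [Nat.cast_sub (by omega)]
          norm_num
        rw [h7]
        have : (3 : ℤ) ≤ m := by exact_mod_cast hm
        linarith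
      · have := hW.neg_ge hm
        omega
    · -- a zero
      refine ⟨?_, fun _ h => absurd h h0⟩
      push Not at h0
      obtain ⟨z, hz, hz0⟩ := h0
      rw [hz0] at hz
      obtain ⟨a, b, hab⟩ := List.append_of_mem hz
      -- rotate
      have hPM' : PM (Phi (lam m) (0 :: (b ++ a))) := by
        have := Phi_comm (l := a) (l' := 0 :: b) (hab ▸ hPM)
        simpa using this
      have hneg' : neg (b ++ a) < m := by
        have h1 : neg l = neg (b ++ a) := by
          rw [hab, neg_append, neg_cons, neg_append]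
          simp only [lt_self_iff_false, if_false]
          omega
        omega
      have hsum : l.sum = (b ++ a).sum := by
        rw [hab, List.sum_append, List.sum_cons, List.sum_append]
        ring
      have hlen : (b ++ a).length + 1 = n := by
        rw [← hn, hab]
        simp only [List.length_append, List.length_cons]
        omega
      rw [hsum]
      generalize b ++ a = r at *
      rcases r with _ | ⟨y, r⟩
      · simp
      · rcases List.eq_nil_or_concat r with rfl | ⟨r', x, rfl⟩
        · -- two entries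
          have hy : y = 0 := by
            rw [Phi_cons, Phi_cons, Phi_nil, mul_one] at hPM'
            have e : (E (lam m) 0 * E (lam m) y) 1 0 = y * lam m := by
              simp [E, Matrix.mul_apply, Fin.sum_univ_two]
            have h1 : (y : ℝ) * lam m = 0 := by
              rw [← e]
              rcases hPM' with h | h <;> rw [h] <;> simp
            have h2 := (mul_eq_zero.1 h1).resolve_right (lam_ne hm)
            exact_mod_cast h2
          rw [hy]
          simp
        · have hPM2 : PM (Phi (lam m) ((x + y) :: r')) := by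
            have h1 : PM (Phi (lam m) ([x] ++ (0 :: y :: r'))) := by
              apply Phi_comm (l := 0 :: y :: r') (l' := [x])
              simpa using hPM'
            rw [Phi_append, Phi_cons, Phi_cons, Phi_nil, mul_one, Phi_cons, ← mul_assoc,
              ← mul_assoc, mul_assoc (E (lam m) x), E_zero, neg_mul, PM.neg_iff] at h1
            rw [Phi_cons]
            exact h1
          have hlen2 : ((x + y) :: r').length < n := by
            rw [← hlen]
            simp
          have hneg2 : neg ((x + y) :: r') < m := by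
            refine lt_of_le_of_lt ?_ hneg'
            rw [neg_cons, neg_cons, List.concat_eq_append, neg_append, neg_cons]
            have h0 : neg [] = 0 := rfl
            rw [h0]
            by_cases hx : x < 0
            · rw [if_pos hx]
              split_ifs <;> omega
            · by_cases hy : y < 0
              · rw [if_pos hy]
                split_ifs <;> omega
              · rw [if_neg (by omega : ¬ (x + y < 0))]
                omega
          have h6 := (ih _ hlen2 _ rfl hneg2 hPM2).1
          simp only [List.concat_eq_append, List.sum_append, List.sum_cons, List.sum_nil] at h6 ⊢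
          linarith

/-! ## The mirror -/

theorem E_neg (c : ℝ) (x : ℤ) : E c (-x) = -(!![1, 0; 0, -1] * E c x * !![1, 0; 0, -1]) := by
  ext i j
  fin_cases i <;> fin_cases j <;> simp [E, Matrix.mul_apply, Fin.sum_univ_two]

theorem D_sq : (!![1, 0; 0, -1] : Matrix (Fin 2) (Fin 2) ℝ) * !![1, 0; 0, -1] = 1 := by
  ext i j
  fin_cases i <;> fin_cases j <;> simp [Matrix.mul_apply, Fin.sum_univ_two]

theorem Phi_neg (c : ℝ) (l : List ℤ) : Phi c (l.map (fun x => -x)) =
    ((-1) ^ l.length : ℝ) • (!![1, 0; 0, -1] * Phi c l * !![1, 0; 0, -1]) := by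
  induction l with
  | nil =>
    simp only [List.map_nil, Phi_nil, List.length_nil, pow_zero, one_smul, mul_one]
    exact D_sq.symm
  | cons x l ih =>
    rw [List.map_cons, Phi_cons, Phi_cons, ih, E_neg, List.length_cons, pow_succ]
    have h1 : -(!![1, 0; 0, -1] * E c x * !![1, 0; 0, -1]) *
        (((-1) ^ l.length : ℝ) • (!![1, 0; 0, -1] * Phi c l * !![1, 0; 0, -1])) =
        ((-1) ^ l.length * -1 : ℝ) • (!![1, 0; 0, -1] * E c x *
          (!![1, 0; 0, -1] * !![1, 0; 0, -1]) * Phi c l * !![1, 0; 0, -1]) := by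
      simp only [neg_mul, Matrix.mul_smul, mul_neg, mul_one, neg_smul, smul_neg, mul_assoc]
    rw [h1, D_sq]
    simp only [mul_one, mul_assoc]

theorem PM_neg_list {c : ℝ} {l : List ℤ} (h : PM (Phi c l)) :
    PM (Phi c (l.map (fun x => -x))) := by
  rw [Phi_neg]
  have h1 : PM (!![1, 0; 0, -1] * Phi c l * !![1, 0; 0, -1]) := by
    rcases h with h | h
    · left
      rw [h, mul_one, D_sq]
    · right
      rw [h, mul_neg, mul_one, neg_mul, D_sq]
  rcases neg_one_pow_eq_or ℝ l.length with h2 | h2
  · rw [h2, one_smul]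
    exact h1
  · rw [h2, neg_smul, one_smul]
    exact h1.neg

/-- a non-trivial list shorter than `2 m` with sum zero -/
theorem short {m : ℕ} (hm : 3 ≤ m) (l : List ℤ) (hl : l ≠ []) (h0 : ∀ z ∈ l, z ≠ 0)
    (hlen : l.length < 2 * m) (hsum : l.sum = 0) : ¬ PM (Phi (lam m) l) := by
  intro hPM
  have hc : neg l + neg (l.map (fun x => -x)) = l.length := by
    have h1 : neg (l.map (fun x => -x)) = l.countP (fun x => !decide (x < 0)) := by
      rw [neg, List.countP_map]
      apply List.countP_congr
      intro x hx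
      have := h0 x hx
      simp only [Function.comp_apply, decide_eq_true_eq, Bool.not_eq_true', decide_eq_false_iff_not]
      omega
    rw [h1, neg]
    have := List.length_eq_countP_add_countP (l := l) (fun x => decide (x < 0))
    rw [this]
    congr 1
    apply List.countP_congr
    intro x hx
    simp
  rcases Nat.lt_or_ge (neg l) m with h | h
  · have := (claim hm _ l rfl h hPM).2 hl h0
    omega
  · have h2 : neg (l.map (fun x => -x)) < m := by omega
    have h3 := (claim hm _ _ rfl h2 (PM_neg_list hPM)).2 (by simpa using hl) (by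
      intro z hz
      rw [List.mem_map] at hz
      obtain ⟨w, hw, rfl⟩ := hz
      exact neg_ne_zero.2 (h0 w hw))
    have h4 : (l.map (fun x => -x)).sum = -l.sum := by
      clear * -
      induction l with
      | nil => simp
      | cons x l ih =>
        rw [List.map_cons, List.sum_cons, ih, List.sum_cons]
        ring
    rw [h4, hsum] at h3
    simp at h3

/-- the list of exponents -/
def expo (a b : ℕ → ℤ) (L : List ℕ) : List ℤ := L.flatMap fun i => [a i, b i]

theorem prod_eq (c : ℝ) (a b : ℕ → ℤ) (L : List ℕ) :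
    (L.map fun i => (!![1, (a i : ℝ) * c; 0, 1] * !![1, 0; -((b i : ℝ) * c), 1] :
      Matrix (Fin 2) (Fin 2) ℝ)).prod = ((-1) ^ L.length : ℝ) • Phi c (expo a b L) := by
  induction L with
  | nil => simp [expo, Phi]
  | cons i L ih =>
    rw [List.map_cons, List.prod_cons, ih]
    have h1 : Phi c (expo a b (i :: L)) = E c (a i) * E c (b i) * Phi c (expo a b L) := by
      rw [expo, List.flatMap_cons, Phi_append, Phi_cons, Phi_cons, Phi_nil, mul_one]
      rfl
    have h2 : (!![1, (a i : ℝ) * c; 0, 1] * !![1, 0; -((b i : ℝ) * c), 1] :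
        Matrix (Fin 2) (Fin 2) ℝ) = -(E c (a i) * E c (b i)) := by
      ext r s
      fin_cases r <;> fin_cases s <;> simp [E, Matrix.mul_apply, Fin.sum_univ_two] <;> ring
    rw [h1, h2, List.length_cons, pow_succ, Matrix.mul_smul, neg_mul, smul_neg, mul_neg_one,
      neg_smul]

end MG

open MG in
theorem mat_girth (m : ℕ) (hm : 3 ≤ m) (j : ℕ) (a b : ℕ → ℤ) (hj : 0 < j) (hjm : j < m)
    (hab : ∀ i, i < j → a i ≠ 0 ∧ b i ≠ 0) (hsum : ∑ i ∈ Finset.range j, (a i + b i) = 0) :
    ((List.range j).map fun i =>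
      (!![1, (a i : ℝ) * (2 * Real.cos (Real.pi / m)); 0, 1] *
        !![1, 0; -((b i : ℝ) * (2 * Real.cos (Real.pi / m))), 1] :
          Matrix (Fin 2) (Fin 2) ℝ)).prod ≠ 1 := by
  intro h
  have h1 := prod_eq (2 * Real.cos (Real.pi / m)) a b (List.range j)
  rw [h, List.length_range] at h1
  have hPM : PM (Phi (lam m) (expo a b (List.range j))) := by
    change PM (Phi (2 * Real.cos (Real.pi / m)) (expo a b (List.range j)))
    rcases neg_one_pow_eq_or ℝ j with h2 | h2
    · rw [h2, one_smul] at h1
      exact Or.inl h1.symm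
    · rw [h2, neg_smul, one_smul] at h1
      exact Or.inr (by rw [h1, neg_neg])
  have key : ∀ k : ℕ, (expo a b (List.range k)).length = 2 * k ∧
      (expo a b (List.range k)).sum = ∑ i ∈ Finset.range k, (a i + b i) := by
    intro k
    induction k with
    | zero => simp [expo]
    | succ k ih =>
      have h3 : expo a b (List.range (k + 1)) = expo a b (List.range k) ++ [a k, b k] := by
        rw [expo, expo, List.range_succ, List.flatMap_append]
        rfl
      rw [h3, List.length_append, ih.1, List.sum_append, ih.2, Finset.sum_range_succ]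
      refine ⟨?_, ?_⟩
      · simp
        ring
      · simp
  obtain ⟨hl, hs⟩ := key j
  refine short hm _ ?_ ?_ ?_ ?_ hPM
  · intro h3
    rw [h3] at hl
    simp at hl
    omega
  · intro z hz
    rw [expo, List.mem_flatMap] at hz
    obtain ⟨i, hi, hz⟩ := hz
    have := hab i (List.mem_range.1 hi)
    rcases List.mem_cons.1 hz with rfl | hz
    · exact this.1
    · rw [List.mem_singleton] at hz
      rw [hz]
      exact this.2
  · omega
  · rw [hs, hsum]

end Pool.Agent.helper24.FJ3
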