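import Pool.Agent.helper34.FJ3.Red

set_option autoImplicit false
set_option linter.unusedVariables false

/-!
# The collapse induction
-/

namespace Pool.Agent.helper24.FJ3

open Pool.Agent.helper34.FJ2 Pool.Agent.helper34.FJ3
open scoped BigOperators

variable {P : ∀ (G : Type) [Group G], Prop}

/-- remove every triangle which has an edge in `E` and every edge in `E` which lies in a
triangle -/
def collapse {V : Type} (X : Complex2 V) (E : V → V → Prop) (hE : ∀ a b, E a b → E b a) :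
    Complex2 V where
  edge a b := X.edge a b ∧ ¬ (E a b ∧ ∃ c, X.tri a b c)
  tri a b c := X.tri a b c ∧ ¬ E a b ∧ ¬ E b c ∧ ¬ E a c
  edge_symm := by
    rintro a b ⟨h1, h2⟩
    exact ⟨X.edge_symm _ _ h1, fun h3 => h2 ⟨hE _ _ h3.1, h3.2.imp fun c => X.tri_swap _ _ _⟩⟩
  edge_irrefl a h := X.edge_irrefl a h.1
  tri_rot := by
    rintro a b c ⟨h, h1, h2, h3⟩
    exact ⟨X.tri_rot _ _ _ h, h2, fun h' => h3 (hE _ _ h'), fun h' => h1 (hE _ _ h')⟩
  tri_swap := by
    rintro a b c ⟨h, h1, h2, h3⟩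
    exact ⟨X.tri_swap _ _ _ h, fun h' => h1 (hE _ _ h'), h3, h2⟩
  tri_edge := by
    rintro a b c ⟨h, h1, h2, h3⟩
    exact ⟨X.tri_edge _ _ _ h, fun h' => h1 h'.1⟩

/-- the statement of module A2 -/
def TreeCase (P : ∀ (G : Type) [Group G], Prop) : Prop :=
  ∀ (L V K : Type) [Group L] [MulAction L V] (X : Complex2 V)
    (τ : V → K), Inv L X → (∀ a b, X.edge a b → τ a ≠ τ b) →
    (∀ (g : L) (a : V), τ (g • a) = τ a) → SimplyConnected X →
    (∀ a b c, ¬ X.tri a b c) → ∀ (φ : L →* Multiplicative ℤ),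
    (∀ (v : V) (g : L), g • v = v → φ g = 1 → g = 1) → P L

/-- the statement of module A5a -/
def CollapseSC : Prop :=
  ∀ (V : Type) (X : Complex2 V) (_ : SimplyConnected X) (E : V → V → Prop)
    (hE : ∀ a b, E a b → E b a) (_ : ∀ a b c, X.tri a b c → E a b → ¬ E a c)
    (_ : ∀ a b c d, E a b → X.tri a b c → X.tri a b d → c = d),
    SimplyConnected (collapse X E hE)

/-- the statement of module A5b -/
def GoodLeaf : Prop :=
  ∀ (N V K : Type) [Group N] [MulAction N V] (X : Complex2 V) (len : V → V → ℝ)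
    (τ : V → K) (_ : NPC X len) (_ : Typed X τ) (_ : Acts N X len τ) (_ : Rot N X len)
    (_ : Geo (quo N X) (quoLen N X len)) (T : Quo N V → Quo N V → Quo N V → Prop)
    (_ : ∀ a b c, T a b c → (quo N X).tri a b c) (_ : ∀ a b c, T a b c → T b c a)
    (_ : ∀ a b c, T a b c → T b a c) (_ : {a | ∃ b c, T a b c}.Finite)
    (_ : ∃ a b c, T a b c),
    ∃ a b c : V, X.tri a b c ∧ T (qmk N a) (qmk N b) (qmk N c) ∧
      (∀ z, T (qmk N a) (qmk N b) z → z = qmk N c) ∧
      ∀ g : N, g • a = a → g • b = b → g • c = c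

theorem qmk_eq {N V : Type} [Group N] [MulAction N V] {a b : V} :
    qmk N a = qmk N b ↔ ∃ n : N, n • b = a := by
  unfold qmk
  rw [Quotient.eq]
  rfl

theorem qmk_smul {N V : Type} [Group N] [MulAction N V] (g : N) (a : V) :
    qmk N (g • a) = qmk N a := qmk_eq.2 ⟨g, rfl⟩

theorem typ_of_qmk {N V K : Type} [Group N] [MulAction N V] {X : Complex2 V} {len : V → V → ℝ}
    {τ : V → K} (ha : Acts N X len τ) {a b : V} (h : qmk N a = qmk N b) : τ a = τ b := by
  obtain ⟨n, rfl⟩ := qmk_eq.1 h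
  exact ha.typ n b

/-- the (U)-trick -/
theorem utrick {N V K : Type} [Group N] [MulAction N V] {X : Complex2 V} {len : V → V → ℝ}
    {τ : V → K} (hτ : Typed X τ) (ha : Acts N X len τ) {a b : V} {n : N} (h : X.edge a b)
    (h' : X.edge a (n • b)) : n • b = b ∨ n • a = a := by
  rcases hτ.uniq a b h with h1 | h1
  · exact Or.inl (h1 _ h' (ha.typ _ _))
  · right
    have h2 : X.edge b (n⁻¹ • a) := by
      have h3 := ha.edge n⁻¹ _ _ (X.edge_symm _ _ h')
      rwa [inv_smul_smul] at h3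
    have h3 := h1 _ h2 (ha.typ _ _)
    rw [inv_smul_eq_iff] at h3
    exact h3.symm

/-- two edges with the same end classes are translates -/
theorem edge_translate {N V K : Type} [Group N] [MulAction N V] {X : Complex2 V}
    {len : V → V → ℝ} {τ : V → K} (hτ : Typed X τ) (ha : Acts N X len τ) {a b u v : V}
    (h : X.edge a b) (h' : X.edge u v) (hu : qmk N u = qmk N a) (hv : qmk N v = qmk N b) :
    ∃ m : N, m • u = a ∧ m • v = b := by
  obtain ⟨m, rfl⟩ := qmk_eq.1 hu.symm
  obtain ⟨k, hk⟩ := qmk_eq.1 (show qmk N (m • v) = qmk N b by rw [qmk_smul, hv])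
  have h1 : X.edge (m • u) (k • b) := by
    rw [hk]
    exact ha.edge _ _ _ h'
  rcases utrick hτ ha h h1 with h2 | h2
  · exact ⟨m, rfl, by rw [← hk, h2]⟩
  · refine ⟨k⁻¹ * m, ?_, ?_⟩
    · rw [mul_smul, inv_smul_eq_iff, h2]
    · rw [mul_smul, ← hk, inv_smul_smul]

/-- uniqueness of the triangle over a good corner -/
theorem good_unique {N V K : Type} [Group N] [MulAction N V] {X : Complex2 V}
    {len : V → V → ℝ} {τ : V → K} (hτ : Typed X τ) (ha : Acts N X len τ) {a b c : V}
    (hX : X.tri a b c) (hg : ∀ g : N, g • a = a → g • b = b → g • c = c) {u v w w' : V}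
    (hu : qmk N u = qmk N a) (hv : qmk N v = qmk N b) (hw : qmk N w = qmk N c)
    (hw' : qmk N w' = qmk N c) (h1 : X.tri u v w) (h2 : X.tri u v w') : w = w' := by
  obtain ⟨m, rfl, rfl⟩ := edge_translate hτ ha (X.tri_edge _ _ _ hX) (X.tri_edge _ _ _ h1) hu hv
  have key : ∀ z, qmk N z = qmk N c → X.tri u v z → m • z = c := by
    intro z hz h3
    obtain ⟨k, hk⟩ := qmk_eq.1 (show qmk N (m • z) = qmk N c by rw [qmk_smul, hz])
    have h4 : X.tri (m • u) (m • v) (k • c) := by
      rw [hk]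
      exact ha.tri _ _ _ _ h3
    rcases utrick hτ ha (X.tri_edge'' hX) (X.tri_edge'' h4) with h5 | h5
    · rw [← hk, h5]
    · rcases utrick hτ ha (X.tri_edge' hX) (X.tri_edge' h4) with h6 | h6
      · rw [← hk, h6]
      · rw [← hk, hg k h5 h6]
  have h3 := key w hw h1
  have h4 := key w' hw' h2
  exact smul_left_cancel m (h3.trans h4.symm)

/-- the triangles of the quotient which are covered -/
def tset (N : Type) {V W : Type} [Group N] [MulAction N V] (Y : Complex2 W) (p : W → V) :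
    Set (Quo N V × Quo N V × Quo N V) :=
  {t | ∃ a b c, Y.tri a b c ∧ (qmk N (p a), qmk N (p b), qmk N (p c)) = t}

theorem collapse_ind (hP : Closed P) (tree_case : TreeCase P) (collapse_sc : CollapseSC)
    (good_leaf : GoodLeaf) {N V K : Type} [Group N] [MulAction N V] (X : Complex2 V)
    (len : V → V → ℝ) (τ : V → K) (hn : NPC X len) (hτ : Typed X τ)
    (ha : Acts N X len τ) (φ : N →* Multiplicative ℤ)
    (hφ : ∀ (v : V) (g : N), g • v = v → φ g = 1 → g = 1) (hr : Rot N X len)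
    (hg : Geo (quo N X) (quoLen N X len)) (n : ℕ) :
    ∀ (L W : Type) [Group L] [MulAction L W] (Y : Complex2 W) (lam : L →* N) (p : W → V),
      SimplyConnected Y → Inv L Y → (∀ (g : L) (w : W), p (g • w) = lam g • p w) →
      (∀ a b, Y.edge a b → X.edge (p a) (p b)) →
      (∀ a b c, Y.tri a b c → X.tri (p a) (p b) (p c)) →
      (∀ a b c, Y.edge a b → Y.edge a c → p b = p c → b = c) →
      (∀ (w : W) (g : L), g • w = w → lam g = 1 → g = 1) →
      (tset N Y p).Finite → (tset N Y p).ncard ≤ n → P L := by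
  classical
  induction n with
  | zero =>
    intro L W _ _ Y lam p hs hi hp he ht hl hst hfin hcard
    have h0 : tset N Y p = ∅ := (Set.ncard_eq_zero hfin).1 (Nat.le_zero.1 hcard)
    refine tree_case L W K Y (fun w => τ (p w)) hi (fun a b h => hτ.ne _ _ (he _ _ h)) ?_ hs ?_
      (φ.comp lam) ?_
    · intro g a
      rw [hp, ha.typ]
    · intro a b c h
      have : (qmk N (p a), qmk N (p b), qmk N (p c)) ∈ tset N Y p := ⟨a, b, c, h, rfl⟩
      rw [h0] at this
      exact this
    · intro w g h1 h2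
      refine hst w g h1 (hφ (p w) (lam g) ?_ h2)
      rw [← hp, h1]
  | succ n ih =>
    intro L W _ _ Y lam p hs hi hp he ht hl hst hfin hcard
    by_cases hne : ∃ a b c, Y.tri a b c
    · obtain ⟨a₀, b₀, c₀, h₀⟩ := hne
      have hT : ∀ x y z, (x, y, z) ∈ tset N Y p → (quo N X).tri x y z := by
        rintro x y z ⟨u, v, w, h1, h2⟩
        simp only [Prod.mk.injEq] at h2
        obtain ⟨rfl, rfl, rfl⟩ := h2
        have h3 := ht _ _ _ h1
        refine ⟨⟨?_, ?_, ?_⟩, p u, p v, p w, h3, rfl, rfl, rfl⟩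
        · intro h4
          exact hτ.ne _ _ (X.tri_edge _ _ _ h3) (typ_of_qmk ha h4)
        · intro h4
          exact hτ.ne _ _ (X.tri_edge' h3) (typ_of_qmk ha h4)
        · intro h4
          exact hτ.ne _ _ (X.tri_edge'' h3) (typ_of_qmk ha h4)
      obtain ⟨a, b, c, hX, hTabc, huniq, hgood⟩ := good_leaf N V K X len τ hn hτ ha hr hg
        (fun x y z => (x, y, z) ∈ tset N Y p) hT
        (by
          rintro x y z ⟨u, v, w, h1, h2⟩
          simp only [Prod.mk.injEq] at h2
          obtain ⟨rfl, rfl, rfl⟩ := h2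
          exact ⟨v, w, u, Y.tri_rot _ _ _ h1, rfl⟩)
        (by
          rintro x y z ⟨u, v, w, h1, h2⟩
          simp only [Prod.mk.injEq] at h2
          obtain ⟨rfl, rfl, rfl⟩ := h2
          exact ⟨v, u, w, Y.tri_swap _ _ _ h1, rfl⟩)
        (by
          refine (hfin.image Prod.fst).subset ?_
          rintro x ⟨y, z, h⟩
          exact ⟨_, h, rfl⟩)
        ⟨_, _, _, a₀, b₀, c₀, h₀, rfl⟩
      -- the edges over the free edge
      let E : W → W → Prop := fun u v => (qmk N (p u) = qmk N a ∧ qmk N (p v) = qmk N b) ∨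
        (qmk N (p u) = qmk N b ∧ qmk N (p v) = qmk N a)
      have hE : ∀ u v, E u v → E v u := by
        rintro u v (⟨h1, h2⟩ | ⟨h1, h2⟩)
        · exact Or.inr ⟨h2, h1⟩
        · exact Or.inl ⟨h2, h1⟩
      have hab : τ a ≠ τ b := hτ.ne _ _ (X.tri_edge _ _ _ hX)
      have hE1 : ∀ u v w, Y.tri u v w → E u v → ¬ E u w := by
        intro u v w h1 h2 h3
        have h4 : τ (p v) ≠ τ (p w) := hτ.ne _ _ (X.tri_edge' (ht _ _ _ h1))
        rcases h2 with ⟨h5, h6⟩ | ⟨h5, h6⟩ <;> rcases h3 with ⟨h7, h8⟩ | ⟨h7, h8⟩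
        · exact h4 ((typ_of_qmk ha h6).trans (typ_of_qmk ha h8).symm)
        · exact hab ((typ_of_qmk ha h5).symm.trans (typ_of_qmk ha h7))
        · exact hab ((typ_of_qmk ha h7).symm.trans (typ_of_qmk ha h5))
        · exact h4 ((typ_of_qmk ha h6).trans (typ_of_qmk ha h8).symm)
      have hE2' : ∀ u v w w', qmk N (p u) = qmk N a → qmk N (p v) = qmk N b →
          Y.tri u v w → Y.tri u v w' → w = w' := by
        intro u v w w' h1 h2 h3 h4
        have h5 : ∀ z, Y.tri u v z → qmk N (p z) = qmk N c := by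
          intro z hz
          apply huniq
          exact ⟨u, v, z, hz, by rw [h1, h2]⟩
        have h6 := good_unique hτ ha hX hgood h1 h2 (h5 w h3) (h5 w' h4) (ht _ _ _ h3)
          (ht _ _ _ h4)
        exact hl u w w' (Y.tri_edge'' h3) (Y.tri_edge'' h4) h6
      have hE2 : ∀ u v w w', E u v → Y.tri u v w → Y.tri u v w' → w = w' := by
        rintro u v w w' (⟨h1, h2⟩ | ⟨h1, h2⟩) h3 h4
        · exact hE2' u v w w' h1 h2 h3 h4
        · exact hE2' v u w w' h2 h1 (Y.tri_swap _ _ _ h3) (Y.tri_swap _ _ _ h4)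
      have hsc := collapse_sc W Y hs E hE hE1 hE2
      have hEsmul : ∀ (g : L) (u v : W), E (g • u) (g • v) ↔ E u v := by
        intro g u v
        change (qmk N (p (g • u)) = qmk N a ∧ qmk N (p (g • v)) = qmk N b) ∨
          (qmk N (p (g • u)) = qmk N b ∧ qmk N (p (g • v)) = qmk N a) ↔ _
        rw [hp, hp, qmk_smul, qmk_smul]
      have hsub : tset N (collapse Y E hE) p ⊂ tset N Y p := by
        rw [Set.ssubset_iff_of_subset]
        · refine ⟨_, hTabc, ?_⟩
          rintro ⟨u, v, w, h1, h2⟩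
          simp only [Prod.mk.injEq] at h2
          exact h1.2.1 (Or.inl ⟨h2.1, h2.2.1⟩)
        · rintro t ⟨u, v, w, h1, h2⟩
          exact ⟨u, v, w, h1.1, h2⟩
      refine ih L W (collapse Y E hE) lam p hsc ⟨?_, ?_⟩ hp (fun u v h => he u v h.1)
        (fun u v w h => ht u v w h.1) (fun u v w h1 h2 => hl u v w h1.1 h2.1) hst
        (hfin.subset hsub.subset) ?_
      · rintro g u v ⟨h1, h2⟩
        refine ⟨hi.edge _ _ _ h1, ?_⟩
        rintro ⟨h3, w, h4⟩
        refine h2 ⟨(hEsmul g u v).1 h3, g⁻¹ • w, ?_⟩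
        have h5 := hi.tri g⁻¹ _ _ _ h4
        rwa [inv_smul_smul, inv_smul_smul] at h5
      · rintro g u v w ⟨h1, h2, h3, h4⟩
        exact ⟨hi.tri _ _ _ _ h1, fun h => h2 ((hEsmul _ _ _).1 h),
          fun h => h3 ((hEsmul _ _ _).1 h), fun h => h4 ((hEsmul _ _ _).1 h)⟩
      · have := Set.ncard_lt_ncard hsub hfin
        omega
    · push Not at hne
      refine ih L W Y lam p hs hi hp he ht hl hst hfin ?_
      have h0 : tset N Y p = ∅ := by
        ext t
        simp only [tset, Set.mem_ofPred_eq, Set.mem_empty_iff_false, iff_false]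
        rintro ⟨u, v, w, h1, _⟩
        exact hne _ _ _ h1
      rw [h0]
      simp

theorem pn_of (hP : Closed P) (tree_case : TreeCase P) (collapse_sc : CollapseSC)
    (good_leaf : GoodLeaf) {N V K : Type} [Group N] [MulAction N V] (X : Complex2 V)
    (len : V → V → ℝ) (τ : V → K) (hs : SimplyConnected X) (hn : NPC X len) (hτ : Typed X τ)
    (ha : Acts N X len τ) (φ : N →* Multiplicative ℤ)
    (hφ : ∀ (v : V) (g : N), g • v = v → φ g = 1 → g = 1) (hr : Rot N X len)
    (hg : Geo (quo N X) (quoLen N X len)) : P N := by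
  refine red hP X ha.inv hs ?_
  intro H A x hA hfo _
  have hfin : (tset N (Cov.complex A.toC x) (Cov.ep : Cov A.toC x → V)).Finite := by
    obtain ⟨F, hF, _, h2⟩ := hfo
    have h3 : ((qmk N '' F) ×ˢ ((qmk N '' F) ×ˢ (qmk N '' F))).Finite :=
      (hF.image _).prod ((hF.image _).prod (hF.image _))
    refine h3.subset ?_
    rintro t ⟨u, v, w, h4, rfl⟩
    obtain ⟨g, h5, h6, h7⟩ := h2 _ _ _ h4.1
    refine ⟨⟨_, h5, ?_⟩, ⟨_, h6, ?_⟩, ⟨_, h7, ?_⟩⟩
    · exact qmk_smul (g : N) _
    · exact qmk_smul (g : N) _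
    · exact qmk_smul (g : N) _
  refine collapse_ind hP tree_case collapse_sc good_leaf X len τ hn hτ ha φ hφ hr hg _ (Lifts A x) (Cov A.toC x)
    (Cov.complex A.toC x) (H.subtype.comp (Lifts.proj A x)) Cov.ep (Cov.simplyConnected _ _)
    Lifts.inv_cover ?_ ?_ ?_ ?_ ?_ hfin le_rfl
  · intro g w
    exact Lifts.ep_smul g w
  · intro a b h
    exact hA.1 _ _ h.1
  · intro a b c h
    exact hA.2 _ _ _ h.1
  · intro a b c h1 h2 h3
    exact Cov.ext_ep h1 h2 h3
  · intro w g h1 h2
    refine Lifts.stab_inj w g 1 h1 (one_smul _ _) ?_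
    rw [map_one]
    exact Subtype.ext h2

end Pool.Agent.helper24.FJ3
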